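import Mathlib

/-!
A sequence space on `ℕ × Γ` whose squared norm is the supremum of weighted sums of squares.
-/

namespace Pool.Agent.Lib.MP_ad4c49_an

open scoped ENNReal

variable {𝕜 : Type} [RCLike 𝕜] {Γ : Type}

open Classical in
/-- The squared weights attached to a selection `s`. -/
noncomputable def wt (s : ℕ → Option Γ) (i : ℕ × Γ) : ℝ := if s i.1 = some i.2 then 16 ^ i.1 else 1

lemma one_le_wt (s : ℕ → Option Γ) (i : ℕ × Γ) : 1 ≤ wt s i := by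
  unfold wt
  split_ifs
  · exact one_le_pow₀ (by norm_num)
  · exact le_rfl

lemma wt_nonneg (s : ℕ → Option Γ) (i : ℕ × Γ) : 0 ≤ wt s i := zero_le_one.trans (one_le_wt s i)

lemma wt_le (s : ℕ → Option Γ) (i : ℕ × Γ) : wt s i ≤ 16 ^ i.1 := by
  unfold wt
  split_ifs
  · exact le_rfl
  · exact one_le_pow₀ (by norm_num)

lemma wt_none (i : ℕ × Γ) : wt (fun _ => none) i = 1 := by simp [wt]

lemma exists_toL2 {E ι : Type} [NormedAddCommGroup E] [NormedSpace 𝕜 E] (g : ι → E →L[𝕜] 𝕜)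
    (K : ℝ) (hK : 0 ≤ K) (h : ∀ x (F : Finset ι), ∑ j ∈ F, ‖g j x‖ ^ 2 ≤ (K * ‖x‖) ^ 2) :
    ∃ G : E →L[𝕜] lp (fun _ : ι => 𝕜) 2, ∀ x j, G x j = g j x := by
  have hm : ∀ x, Memℓp (fun j => g j x) 2 := fun x =>
    memℓp_gen' (C := (K * ‖x‖) ^ 2) (fun F => by simpa using h x F)
  let L : E →ₗ[𝕜] lp (fun _ : ι => 𝕜) 2 :=
    { toFun := fun x => ⟨fun j => g j x, hm x⟩
      map_add' := fun x y => by ext j; simp
      map_smul' := fun a x => by ext j; simp }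
  refine ⟨L.mkContinuous K fun x => ?_, fun x j => rfl⟩
  apply lp.norm_le_of_forall_sum_le (by norm_num) (by positivity)
  intro F
  simpa using! h x F

/-- The abstract interface of the sequence space. -/
structure SeqSp (𝕜 : Type) [RCLike 𝕜] (Γ : Type) (X : Type) [NormedAddCommGroup X]
    [NormedSpace 𝕜 X] where
  c : ℕ × Γ → X →L[𝕜] 𝕜
  build : ∀ (y : ℕ × Γ → 𝕜) (C : ℝ), 0 ≤ C →
    (∀ s (F : Finset (ℕ × Γ)), ∑ i ∈ F, wt s i * ‖y i‖ ^ 2 ≤ C ^ 2) →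
      ∃ x, (∀ i, c i x = y i) ∧ ‖x‖ ≤ C
  bound : ∀ x s (F : Finset (ℕ × Γ)), ∑ i ∈ F, wt s i * ‖c i x‖ ^ 2 ≤ ‖x‖ ^ 2
  ext0 : ∀ x, (∀ i, c i x = 0) → x = 0

/-- The ambient space. -/
abbrev Amb (𝕜 : Type) [RCLike 𝕜] (Γ : Type) : Type :=
  lp (fun _ : ℕ → Option Γ => lp (fun _ : ℕ × Γ => 𝕜) 2) ∞

/-- Coordinates of the ambient space. -/
noncomputable def ev (𝕜 : Type) [RCLike 𝕜] (s : ℕ → Option Γ) (i : ℕ × Γ) : Amb 𝕜 Γ →L[𝕜] 𝕜 :=
  (lp.evalCLM 𝕜 (fun _ : ℕ × Γ => 𝕜) 2 i).comp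
    (lp.evalCLM 𝕜 (fun _ : ℕ → Option Γ => lp (fun _ : ℕ × Γ => 𝕜) 2) ∞ s)

lemma ev_apply (s : ℕ → Option Γ) (i : ℕ × Γ) (u : Amb 𝕜 Γ) : ev 𝕜 s i u = u s i := rfl

/-- The concrete space, a closed subspace of the ambient space. -/
noncomputable def Sub (𝕜 : Type) [RCLike 𝕜] (Γ : Type) : Submodule 𝕜 (Amb 𝕜 Γ) :=
  ⨅ s, ⨅ i, (ev 𝕜 s i - ((√(wt s i) : ℝ) : 𝕜) • ev 𝕜 (fun _ => none) i).ker

lemma mem_Sub (u : Amb 𝕜 Γ) :
    u ∈ Sub 𝕜 Γ ↔ ∀ s i, u s i = ((√(wt s i) : ℝ) : 𝕜) * u (fun _ => none) i := by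
  simp [Sub, Submodule.mem_iInf, ev_apply, sub_eq_zero, RCLike.real_smul_eq_coe_mul]

lemma isClosed_Sub : IsClosed (Sub 𝕜 Γ : Set (Amb 𝕜 Γ)) := by
  unfold Sub
  simp only [Submodule.coe_iInf]
  exact isClosed_iInter fun s => isClosed_iInter fun i => ContinuousLinearMap.isClosed_ker _

lemma norm_sq_wt (s : ℕ → Option Γ) (i : ℕ × Γ) (a : 𝕜) :
    ‖((√(wt s i) : ℝ) : 𝕜) * a‖ ^ 2 = wt s i * ‖a‖ ^ 2 := by
  rw [norm_mul, mul_pow, RCLike.norm_ofReal, sq_abs, Real.sq_sqrt (wt_nonneg s i)]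

theorem exists_seqSp : Nonempty (SeqSp 𝕜 Γ (Sub 𝕜 Γ)) := by
  refine ⟨(fun i => (ev 𝕜 (fun _ => none) i).comp (Sub 𝕜 Γ).subtypeL), ?_, ?_, ?_⟩
  · intro y C hC h
    have hm : ∀ s, Memℓp (fun i => ((√(wt s i) : ℝ) : 𝕜) * y i) 2 := fun s =>
      memℓp_gen' (C := C ^ 2) (fun F => by simpa [← norm_sq_wt] using h s F)
    let v : (ℕ → Option Γ) → lp (fun _ : ℕ × Γ => 𝕜) 2 := fun s => ⟨_, hm s⟩
    have hv : ∀ s, ‖v s‖ ≤ C := fun s => by
      apply lp.norm_le_of_forall_sum_le (by norm_num) hC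
      intro F
      have : ∀ i, v s i = ((√(wt s i) : ℝ) : 𝕜) * y i := fun i => rfl
      simpa [this, ← norm_sq_wt] using h s F
    have hm2 : Memℓp v ∞ := memℓp_infty ⟨C, by rintro _ ⟨s, rfl⟩; exact hv s⟩
    let u : Amb 𝕜 Γ := ⟨v, hm2⟩
    have hu : ∀ s i, u s i = ((√(wt s i) : ℝ) : 𝕜) * y i := fun s i => rfl
    refine ⟨⟨u, (mem_Sub u).mpr fun s i => ?_⟩, fun i => ?_, ?_⟩
    · rw [hu, hu, wt_none]; simp
    · change u _ i = _
      rw [hu, wt_none]; simp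
    · exact lp.norm_le_of_forall_le hC hv
  · rintro ⟨u, hu⟩ s F
    rw [mem_Sub] at hu
    have h1 := lp.sum_rpow_le_norm_rpow (p := 2) (by norm_num) (u s) F
    have h2 : ‖u s‖ ≤ ‖u‖ := lp.norm_apply_le_norm (by simp) u s
    have h3 : ∑ i ∈ F, ‖u s i‖ ^ 2 ≤ ‖u s‖ ^ 2 := by simpa using h1
    calc _ = ∑ i ∈ F, ‖u s i‖ ^ 2 := Finset.sum_congr rfl fun i _ => by
          rw [hu s i, norm_sq_wt]; rfl
      _ ≤ ‖u s‖ ^ 2 := h3
      _ ≤ ‖u‖ ^ 2 := by gcongr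
  · rintro ⟨u, hu⟩ h
    rw [mem_Sub] at hu
    ext s i
    have : u (fun _ => none) i = 0 := h i
    change u s i = _
    rw [hu s i, this]
    simp

namespace SeqSp

variable {X : Type} [NormedAddCommGroup X] [NormedSpace 𝕜 X] (S : SeqSp 𝕜 Γ X)

lemma ext {x y : X} (h : ∀ i, S.c i x = S.c i y) : x = y :=
  sub_eq_zero.mp (S.ext0 _ fun i => by rw [map_sub, h, sub_self])

lemma norm_le (x : X) (C : ℝ) (hC : 0 ≤ C)
    (h : ∀ s (F : Finset (ℕ × Γ)), ∑ i ∈ F, wt s i * ‖S.c i x‖ ^ 2 ≤ C ^ 2) : ‖x‖ ≤ C := by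
  obtain ⟨x', h1, h2⟩ := S.build _ C hC h
  rwa [← S.ext h1]

lemma norm_sq_le (x : X) (D : ℝ)
    (h : ∀ s (F : Finset (ℕ × Γ)), ∑ i ∈ F, wt s i * ‖S.c i x‖ ^ 2 ≤ D) : ‖x‖ ^ 2 ≤ D := by
  have hD : 0 ≤ D := by simpa using h (fun _ => none) ∅
  have := S.norm_le x √D (Real.sqrt_nonneg _) (by rwa [Real.sq_sqrt hD])
  rw [← Real.sq_sqrt hD]
  gcongr

lemma sum_mono {y : ℕ × Γ → 𝕜} {x : X} (h : ∀ i, ‖y i‖ ≤ ‖S.c i x‖) (s) (F : Finset (ℕ × Γ)) :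
    ∑ i ∈ F, wt s i * ‖y i‖ ^ 2 ≤ ‖x‖ ^ 2 := by
  refine le_trans (Finset.sum_le_sum fun i _ => ?_) (S.bound x s F)
  have := wt_nonneg s i
  gcongr
  exact h i

lemma norm_mono {x y : X} (h : ∀ i, ‖S.c i y‖ ≤ ‖S.c i x‖) : ‖y‖ ≤ ‖x‖ :=
  S.norm_le y _ (norm_nonneg _) (S.sum_mono h)

lemma exists_P (A : Set (ℕ × Γ)) : ∃ P : X →L[𝕜] X, ∀ x i,
    S.c i (P x) = A.indicator (fun i => S.c i x) i := by
  have h : ∀ x, ∃ x', (∀ i, S.c i x' = A.indicator (fun i => S.c i x) i) ∧ ‖x'‖ ≤ ‖x‖ := fun x =>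
    S.build _ _ (norm_nonneg x) (S.sum_mono fun i => norm_indicator_le_norm_self _ _)
  choose p hp hp2 using h
  let L : X →ₗ[𝕜] X :=
    { toFun := p
      map_add' := fun x y => S.ext fun i => by
        by_cases hi : i ∈ A <;> simp [hp, hi]
      map_smul' := fun a x => S.ext fun i => by
        by_cases hi : i ∈ A <;> simp [hp, hi] }
  exact ⟨L.mkContinuous 1 fun x => by simpa using! hp2 x, hp⟩

/-- The coordinate projection. -/
noncomputable def P (A : Set (ℕ × Γ)) : X →L[𝕜] X := (S.exists_P A).choose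

lemma c_P (A : Set (ℕ × Γ)) (x : X) (i) :
    S.c i (S.P A x) = A.indicator (fun i => S.c i x) i := (S.exists_P A).choose_spec x i

lemma c_P_mem {A : Set (ℕ × Γ)} (x : X) {i} (hi : i ∈ A) : S.c i (S.P A x) = S.c i x := by
  simp [c_P, hi]

lemma c_P_notMem {A : Set (ℕ × Γ)} (x : X) {i} (hi : i ∉ A) : S.c i (S.P A x) = 0 := by
  simp [c_P, hi]

lemma norm_P_mono {A B : Set (ℕ × Γ)} (h : A ⊆ B) (x : X) : ‖S.P A x‖ ≤ ‖S.P B x‖ := by
  apply S.norm_mono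
  intro i
  by_cases hi : i ∈ A
  · rw [S.c_P_mem x hi, S.c_P_mem x (h hi)]
  · rw [S.c_P_notMem x hi]; simp

lemma norm_P_le (A : Set (ℕ × Γ)) (x : X) : ‖S.P A x‖ ≤ ‖x‖ := by
  apply S.norm_mono
  intro i
  rw [c_P]
  exact norm_indicator_le_norm_self _ _

lemma P_add_compl (A : Set (ℕ × Γ)) (x : X) : S.P A x + S.P Aᶜ x = x := S.ext fun i => by
  by_cases hi : i ∈ A <;> simp [c_P, hi]

lemma P_P (A B : Set (ℕ × Γ)) (x : X) : S.P A (S.P B x) = S.P (A ∩ B) x := S.ext fun i => by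
  by_cases hi : i ∈ A <;> by_cases hj : i ∈ B <;> simp [c_P, hi, hj]

open Classical in
lemma exists_e (i : ℕ × Γ) : ∃ x : X, ∀ j, S.c j x = if j = i then 1 else 0 := by
  obtain ⟨x, hx, -⟩ := S.build (fun j => if j = i then 1 else 0) (4 ^ i.1) (by positivity)
    (fun s F => by
      have : ∀ j, wt s j * ‖(if j = i then 1 else 0 : 𝕜)‖ ^ 2 = if j = i then wt s i else 0 := by
        intro j; split_ifs with h <;> simp [h]
      simp only [this, Finset.sum_ite_eq']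
      have h16 : ((4 : ℝ) ^ i.1) ^ 2 = 16 ^ i.1 := by rw [← pow_mul, mul_comm, pow_mul]; norm_num
      rw [h16]
      split_ifs
      · exact wt_le s i
      · positivity)
  exact ⟨x, hx⟩

/-- The unit vectors. -/
noncomputable def e (i : ℕ × Γ) : X := (S.exists_e i).choose

open Classical in
lemma c_e (i j : ℕ × Γ) : S.c j (S.e i) = if j = i then 1 else 0 := (S.exists_e i).choose_spec j

lemma c_sum_e (y : ℕ × Γ → 𝕜) (F : Finset (ℕ × Γ)) (j) :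
    S.c j (∑ i ∈ F, y i • S.e i) = (F : Set (ℕ × Γ)).indicator y j := by
  classical
  simp only [map_sum, map_smul, c_e, smul_eq_mul, mul_ite, mul_one, mul_zero, Finset.sum_ite_eq]
  by_cases hj : j ∈ F <;> simp [hj]

lemma P_finset (F : Finset (ℕ × Γ)) (x : X) : S.P F x = ∑ i ∈ F, S.c i x • S.e i :=
  S.ext fun j => by rw [c_sum_e, c_P]

lemma tail (x : X) {ε : ℝ} (hε : 0 < ε) : ∃ F : Finset (ℕ × Γ), ‖S.P (↑F)ᶜ x‖ ≤ ε := by
  classical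
  obtain ⟨s0, F0, h0⟩ : ∃ s0, ∃ F0 : Finset (ℕ × Γ),
      ‖x‖ ^ 2 - ε ^ 2 / 2 < ∑ i ∈ F0, wt s0 i * ‖S.c i x‖ ^ 2 := by
    by_contra h
    push Not at h
    have := S.norm_sq_le x _ h
    have : 0 < ε ^ 2 / 2 := by positivity
    linarith
  obtain ⟨n0, hn0⟩ : ∃ n0 : ℕ, ∀ i ∈ F0, i.1 < n0 :=
    ⟨F0.sup Prod.fst + 1, fun i hi => Nat.lt_succ_of_le (Finset.le_sup (f := Prod.fst) hi)⟩
  have hsum : Summable fun i => ‖S.c i x‖ ^ 2 :=
    summable_of_sum_le (fun i => by positivity)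
      (fun F => by simpa [wt_none] using S.bound x (fun _ => none) F)
  obtain ⟨F1, hF1⟩ := summable_iff_vanishing_norm.mp hsum (ε ^ 2 / 2 / 16 ^ n0) (by positivity)
  refine ⟨F1, S.norm_le _ _ hε.le fun s F => ?_⟩
  rw [← Finset.sum_filter_add_sum_filter_not F (fun i => i.1 < n0)]
  have h1 : ∑ i ∈ F with i.1 < n0, wt s i * ‖S.c i (S.P (↑F1)ᶜ x)‖ ^ 2 ≤ ε ^ 2 / 2 := by
    have h2 := hF1 (F \ F1) Finset.sdiff_disjoint
    rw [Real.norm_of_nonneg (by positivity), lt_div_iff₀ (by positivity)] at h2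
    refine le_trans ?_ h2.le
    calc _ ≤ ∑ i ∈ F with i.1 < n0, ‖S.c i (S.P (↑F1)ᶜ x)‖ ^ 2 * 16 ^ n0 := by
          refine Finset.sum_le_sum fun i hi => ?_
          rw [mul_comm]
          gcongr
          exact (wt_le s i).trans
            (pow_le_pow_right₀ (by norm_num) (Finset.mem_filter.mp hi).2.le)
      _ ≤ ∑ i ∈ F, ‖S.c i (S.P (↑F1)ᶜ x)‖ ^ 2 * 16 ^ n0 :=
          Finset.sum_le_sum_of_subset_of_nonneg (Finset.filter_subset _ _)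
            (fun _ _ _ => by positivity)
      _ = _ := by
          rw [← Finset.sum_mul]
          congr 1
          rw [Finset.sdiff_eq_filter, Finset.sum_filter]
          refine Finset.sum_congr rfl fun i _ => ?_
          by_cases hi : i ∈ F1 <;> simp [c_P, hi]
  have h3 : ∑ i ∈ F with ¬ i.1 < n0, wt s i * ‖S.c i (S.P (↑F1)ᶜ x)‖ ^ 2 ≤ ε ^ 2 / 2 := by
    have h4 := S.bound x (fun n => if n < n0 then s0 n else s n) (F0 ∪ F.filter fun i => ¬ i.1 < n0)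
    have hdis : Disjoint F0 (F.filter fun i => ¬ i.1 < n0) :=
      Finset.disjoint_left.mpr fun i hi hi' => (Finset.mem_filter.mp hi').2 (hn0 i hi)
    rw [Finset.sum_union hdis] at h4
    have e1 : ∑ i ∈ F0, wt (fun n => if n < n0 then s0 n else s n) i * ‖S.c i x‖ ^ 2
        = ∑ i ∈ F0, wt s0 i * ‖S.c i x‖ ^ 2 :=
      Finset.sum_congr rfl fun i hi => by simp [wt, hn0 i hi]
    have e2 : ∑ i ∈ F with ¬ i.1 < n0, wt s i * ‖S.c i (S.P (↑F1)ᶜ x)‖ ^ 2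
        ≤ ∑ i ∈ F with ¬ i.1 < n0, wt (fun n => if n < n0 then s0 n else s n) i * ‖S.c i x‖ ^ 2 := by
      refine Finset.sum_le_sum fun i hi => ?_
      have : wt (fun n => if n < n0 then s0 n else s n) i = wt s i := by
        simp [wt, (Finset.mem_filter.mp hi).2]
      rw [this]
      have := wt_nonneg s i
      gcongr
      rw [c_P]
      exact norm_indicator_le_norm_self _ _
    linarith
  linarith

lemma norm_sum_sq_le {κ : Type*} (J : Finset κ) (a : κ → 𝕜)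
    (h : ∀ j ∈ J, ∀ j' ∈ J, j ≠ j' → a j = 0 ∨ a j' = 0) :
    ‖∑ j ∈ J, a j‖ ^ 2 ≤ ∑ j ∈ J, ‖a j‖ ^ 2 := by
  by_cases h0 : ∃ j ∈ J, a j ≠ 0
  · obtain ⟨j, hj, hne⟩ := h0
    rw [Finset.sum_eq_single_of_mem j hj fun j' hj' hh => (h j' hj' j hj hh).resolve_right hne]
    exact Finset.single_le_sum (f := fun j => ‖a j‖ ^ 2) (fun _ _ => by positivity) hj
  · push Not at h0
    rw [Finset.sum_eq_zero h0]
    simp only [norm_zero, ne_eq, OfNat.ofNat_ne_zero, not_false_eq_true, zero_pow]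
    positivity

lemma upper2 {κ : Type*} (J : Finset κ) (x : κ → X)
    (h : ∀ i, ∀ j ∈ J, ∀ j' ∈ J, j ≠ j' → S.c i (x j) = 0 ∨ S.c i (x j') = 0) :
    ‖∑ j ∈ J, x j‖ ^ 2 ≤ ∑ j ∈ J, ‖x j‖ ^ 2 := by
  refine S.norm_sq_le _ _ fun s F => ?_
  calc _ ≤ ∑ i ∈ F, ∑ j ∈ J, wt s i * ‖S.c i (x j)‖ ^ 2 := by
        refine Finset.sum_le_sum fun i _ => ?_
        rw [← Finset.mul_sum, map_sum]
        exact mul_le_mul_of_nonneg_left (norm_sum_sq_le J _ (h i)) (wt_nonneg s i)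
    _ ≤ _ := by
        rw [Finset.sum_comm]
        exact Finset.sum_le_sum fun j _ => S.bound _ s F

lemma lower2 {κ : Type*} (J : Finset κ) (x : κ → X) (hx : ∀ j ∈ J, ‖x j‖ ≤ 1)
    (h : ∀ i, ∀ j ∈ J, ∀ j' ∈ J, j ≠ j' → S.c i (x j) = 0 ∨ S.c i (x j') = 0)
    (f : X →L[𝕜] 𝕜) : ∑ j ∈ J, ‖f (x j)‖ ^ 2 ≤ ‖f‖ ^ 2 := by
  set T := ∑ j ∈ J, ‖f (x j)‖ ^ 2 with hT
  have hT0 : 0 ≤ T := by positivity
  have h1 := S.upper2 J (fun j => (starRingEnd 𝕜) (f (x j)) • x j) (fun i j hj j' hj' hh => by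
    rcases h i j hj j' hj' hh with h | h <;> simp [h])
  have h2 : ∑ j ∈ J, ‖(starRingEnd 𝕜) (f (x j)) • x j‖ ^ 2 ≤ T := by
    refine Finset.sum_le_sum fun j hj => ?_
    rw [norm_smul, RCLike.norm_conj]
    have := hx j hj
    gcongr
    exact mul_le_of_le_one_right (norm_nonneg _) this
  have h3 : f (∑ j ∈ J, (starRingEnd 𝕜) (f (x j)) • x j) = (T : 𝕜) := by
    simp [hT, map_sum, RCLike.conj_mul]
  have h4 := f.le_opNorm (∑ j ∈ J, (starRingEnd 𝕜) (f (x j)) • x j)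
  rw [h3, RCLike.norm_ofReal, abs_of_nonneg hT0] at h4
  have h5 : T ^ 2 ≤ ‖f‖ ^ 2 * T := by
    calc T ^ 2 ≤ (‖f‖ * ‖∑ j ∈ J, (starRingEnd 𝕜) (f (x j)) • x j‖) ^ 2 := by gcongr
      _ ≤ _ := by rw [mul_pow]; gcongr; exact h1.trans h2
  rcases hT0.eq_or_lt with h0 | h0
  · rw [← h0]; positivity
  · nlinarith

lemma shrink (f : X →L[𝕜] 𝕜) {ε : ℝ} (hε : 0 < ε) :
    ∃ F : Finset (ℕ × Γ), ‖f.comp (S.P (↑F)ᶜ)‖ ≤ ε := by
  obtain ⟨F, x, hx, h⟩ : ∃ (F : Finset (ℕ × Γ)) (x : X), ‖x‖ ≤ 1 ∧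
      ‖f‖ ^ 2 - ε ^ 2 ≤ ‖f (S.P F x)‖ ^ 2 := by
    by_contra hcon
    push Not at hcon
    have h0 : 0 < ‖f‖ ^ 2 - ε ^ 2 := by simpa using hcon ∅ 0 (by simp)
    have hlt : √(‖f‖ ^ 2 - ε ^ 2) < ‖f‖ := by
      rw [Real.sqrt_lt' (by
        rcases (norm_nonneg f).eq_or_lt with h | h
        · rw [← h] at h0; nlinarith
        · exact h)]
      nlinarith
    obtain ⟨x, hx1, hx2⟩ := f.exists_lt_apply_of_lt_opNorm hlt
    obtain ⟨F, hF⟩ := S.tail x (ε := (‖f x‖ - √(‖f‖ ^ 2 - ε ^ 2)) / (‖f‖ + 1))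
      (div_pos (by linarith) (by positivity))
    have h1 := hcon F x hx1.le
    have h2 : ‖f (S.P F x)‖ < √(‖f‖ ^ 2 - ε ^ 2) := Real.lt_sqrt_of_sq_lt h1
    have h3 : ‖f x‖ ≤ ‖f (S.P F x)‖ + ‖f‖ * ‖S.P (↑F)ᶜ x‖ := by
      conv_lhs => rw [← S.P_add_compl F x, map_add]
      exact (norm_add_le _ _).trans (by gcongr; exact f.le_opNorm _)
    rw [le_div_iff₀ (by positivity)] at hF
    nlinarith [norm_nonneg (S.P (↑F)ᶜ x)]
  refine ⟨F, ?_⟩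
  by_contra hcon
  obtain ⟨y, hy1, hy2⟩ := ContinuousLinearMap.exists_lt_apply_of_lt_opNorm _ (not_le.mp hcon)
  have h1 := S.lower2 (Finset.univ : Finset Bool) (fun b => if b then S.P F x else S.P (↑F)ᶜ y)
    (fun b _ => by
      cases b
      · exact (S.norm_P_le _ _).trans hy1.le
      · exact (S.norm_P_le _ _).trans hx)
    (fun i b _ b' _ hb => by
      by_cases hi : i ∈ F <;> cases b <;> cases b' <;> simp_all [c_P]) f
  simp only [Fintype.univ_bool, Finset.mem_singleton, Bool.true_eq_false, not_false_eq_true,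
    Finset.sum_insert, ↓reduceIte, Finset.sum_singleton, Bool.false_eq_true] at h1
  have h2 : ε ^ 2 < ‖f (S.P (↑F)ᶜ y)‖ ^ 2 := by
    have : ε < ‖f (S.P (↑F)ᶜ y)‖ := hy2
    gcongr
  linarith

include S in
theorem reflexive : Function.Surjective (NormedSpace.inclusionInDoubleDual 𝕜 X) := by
  intro φ
  have key : ∀ (F : Finset (ℕ × Γ)) (f : X →L[𝕜] 𝕜),
      f (∑ i ∈ F, φ (S.c i) • S.e i) = φ (f.comp (S.P F)) := by
    intro F f
    have : f.comp (S.P F) = ∑ i ∈ F, f (S.e i) • S.c i := by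
      ext x
      simp [S.P_finset, mul_comm]
    rw [this]
    simp [mul_comm]
  have hcomp : ∀ (A : Set (ℕ × Γ)) (f : X →L[𝕜] 𝕜), ‖f.comp (S.P A)‖ ≤ ‖f‖ := fun A f =>
    ContinuousLinearMap.opNorm_le_bound _ (norm_nonneg _) fun x =>
      (f.le_opNorm _).trans (by gcongr; exact S.norm_P_le A x)
  have hb : ∀ F : Finset (ℕ × Γ), ‖∑ i ∈ F, φ (S.c i) • S.e i‖ ≤ ‖φ‖ := fun F => by
    apply NormedSpace.norm_le_dual_bound 𝕜 _ φ.opNorm_nonneg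
    intro f
    rw [key]
    exact (φ.le_opNorm _).trans (by gcongr; exact hcomp _ _)
  obtain ⟨x, hx, -⟩ := S.build (fun i => φ (S.c i)) ‖φ‖ φ.opNorm_nonneg (fun s F => by
    have h1 := S.bound (∑ i ∈ F, φ (S.c i) • S.e i) s F
    refine le_trans (le_of_eq ?_) (h1.trans (by gcongr; exact hb F))
    refine Finset.sum_congr rfl fun i hi => ?_
    rw [c_sum_e, Set.indicator_of_mem (Finset.mem_coe.mpr hi)])
  refine ⟨x, ?_⟩
  ext f
  rw [NormedSpace.dual_def, ← sub_eq_zero, ← norm_le_zero_iff]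
  refine le_of_forall_pos_le_add fun ε hε => ?_
  obtain ⟨F, hF⟩ := S.shrink f (ε := ε / (‖x‖ + ‖φ‖ + 1)) (by positivity)
  have e1 : f = f.comp (S.P F) + f.comp (S.P (↑F)ᶜ) := by
    ext y
    simp only [add_apply, ContinuousLinearMap.comp_apply]
    rw [← map_add, S.P_add_compl]
  have e2 : f (S.P F x) = φ (f.comp (S.P F)) := by
    rw [← key, S.P_finset]
    simp only [hx]
  have e3 : f x - φ f = (f.comp (S.P (↑F)ᶜ)) x - φ (f.comp (S.P (↑F)ᶜ)) := by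
    conv_lhs => rw [e1]
    simp only [add_apply, ContinuousLinearMap.comp_apply, map_add, e2]
    ring
  rw [e3, zero_add]
  rw [le_div_iff₀ (by positivity)] at hF
  refine (norm_sub_le _ _).trans ?_
  have h1 := (f.comp (S.P (↑F)ᶜ)).le_opNorm x
  have h2 := φ.le_opNorm (f.comp (S.P (↑F)ᶜ))
  nlinarith [norm_nonneg (f.comp (S.P (↑F)ᶜ))]

end SeqSp

end Pool.Agent.Lib.MP_ad4c49_an
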