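import Mathlib
import Pool.Agent.Lib.MP_ad4c49_an.Basic

namespace Pool.Agent.Lib.MP_ad4c49_an

variable {𝕜 : Type} [RCLike 𝕜] {Γ : Type}

lemma exists_signs {H κ : Type} [NormedAddCommGroup H] [InnerProductSpace 𝕜 H] (h : κ → H)
    (J : Finset κ) : ∃ ε : κ → 𝕜, (∀ j, ‖ε j‖ ≤ 1) ∧
      ∑ j ∈ J, ‖h j‖ ^ 2 ≤ ‖∑ j ∈ J, ε j • h j‖ ^ 2 := by
  classical
  induction J using Finset.induction_on with
  | empty => exact ⟨0, by simp, by simp⟩
  | insert a J ha ih =>
    obtain ⟨ε, h1, h2⟩ := ih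
    have hpar := parallelogram_law_with_norm 𝕜 (∑ j ∈ J, ε j • h j) (h a)
    have hupd : ∀ t : 𝕜, ∑ j ∈ insert a J, Function.update ε a t j • h j
        = ∑ j ∈ J, ε j • h j + t • h a := by
      intro t
      rw [Finset.sum_insert ha, Function.update_self, add_comm]
      congr 1
      refine Finset.sum_congr rfl fun j hj => ?_
      rw [Function.update_of_ne (ne_of_mem_of_not_mem hj ha)]
    have hn : ∀ t : 𝕜, ‖t‖ ≤ 1 → ∀ j, ‖Function.update ε a t j‖ ≤ 1 := by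
      intro t ht j
      by_cases hj : j = a
      · rw [hj, Function.update_self]; exact ht
      · rw [Function.update_of_ne hj]; exact h1 j
    by_cases hc : ‖∑ j ∈ J, ε j • h j - h a‖ ^ 2 ≤ ‖∑ j ∈ J, ε j • h j + h a‖ ^ 2
    · refine ⟨Function.update ε a 1, hn 1 (by simp), ?_⟩
      rw [hupd, one_smul, Finset.sum_insert ha]
      linarith
    · refine ⟨Function.update ε a (-1), hn (-1) (by simp), ?_⟩
      rw [hupd, neg_one_smul, ← sub_eq_add_neg, Finset.sum_insert ha]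
      linarith

namespace SeqSp

variable {X : Type} [NormedAddCommGroup X] [NormedSpace 𝕜 X] (S : SeqSp 𝕜 Γ X)

lemma exists_J {ι : Type} (φ : ι → ℕ × Γ) (hφ : Function.Injective φ) :
    ∃ J : X →L[𝕜] lp (fun _ : ι => 𝕜) 2, ∀ x j, J x j = S.c (φ j) x := by
  classical
  refine exists_toL2 (fun j => S.c (φ j)) 1 zero_le_one fun x F => ?_
  have := S.bound x (fun _ => none) (F.image φ)
  rw [Finset.sum_image hφ.injOn] at this
  simpa [wt_none] using this

lemma norm_c_le (n : ℕ) (γ : Γ) (x : X) : 4 ^ n * ‖S.c (n, γ) x‖ ≤ ‖x‖ := by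
  have := S.bound x (fun _ => some γ) {(n, γ)}
  simp only [wt, ↓reduceIte, Finset.sum_singleton] at this
  have h16 : ((4 : ℝ) ^ n) ^ 2 = 16 ^ n := by rw [← pow_mul, mul_comm, pow_mul]; norm_num
  rw [← h16, ← mul_pow] at this
  exact (pow_le_pow_iff_left₀ (by positivity) (norm_nonneg _) two_ne_zero).mp this

lemma exists_sigma (γ : Γ) : ∃ σ : X →L[𝕜] 𝕜, (∀ n, σ (S.e (n, γ)) = 2 ^ n) ∧
    ∀ n γ', γ' ≠ γ → σ (S.e (n, γ')) = 0 := by
  have hs : Summable fun n : ℕ => (2 ^ n : 𝕜) • S.c (n, γ) := by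
    apply Summable.of_norm_bounded summable_geometric_two
    intro n
    apply ContinuousLinearMap.opNorm_le_bound _ (by positivity)
    intro x
    have h1 := S.norm_c_le n γ x
    have h2 : (4 : ℝ) ^ n = 2 ^ n * 2 ^ n := by rw [← mul_pow]; norm_num
    simp only [smul_apply, norm_smul, norm_pow, RCLike.norm_ofNat, one_div, inv_pow]
    rw [le_inv_mul_iff₀ (by positivity)]
    rw [h2] at h1
    linarith
  have hev : ∀ x, (∑' n : ℕ, (2 ^ n : 𝕜) • S.c (n, γ)) x = ∑' n : ℕ, (2 ^ n : 𝕜) * S.c (n, γ) x :=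
    fun x => (ContinuousLinearMap.apply 𝕜 𝕜 x).map_tsum hs
  refine ⟨∑' n : ℕ, (2 ^ n : 𝕜) • S.c (n, γ), fun n => ?_, fun n γ' h => ?_⟩
  · rw [hev, tsum_eq_single n]
    · simp [c_e]
    · intro m hm
      simp [c_e, hm]
  · rw [hev]
    simp [c_e, h.symm]

lemma norm_row (n : ℕ) (G : Finset Γ) (ε : Γ → 𝕜) (hε : ∀ γ, ‖ε γ‖ ≤ 1) :
    ‖∑ γ ∈ G, ε γ • S.e (n, γ)‖ ^ 2 ≤ G.card + 16 ^ n := by
  classical
  have hinj : Function.Injective (fun γ : Γ => (n, γ)) := Prod.mk_right_injective n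
  have e1 : ∑ γ ∈ G, ε γ • S.e (n, γ) = ∑ i ∈ G.image (fun γ => (n, γ)), ε i.2 • S.e i := by
    rw [Finset.sum_image hinj.injOn]
  rw [e1]
  refine S.norm_sq_le _ _ fun s F => ?_
  simp only [S.c_sum_e (fun i => ε i.2)]
  calc _ ≤ ∑ i ∈ F, (if i ∈ G.image (fun γ => (n, γ)) then wt s i else 0) := by
        refine Finset.sum_le_sum fun i _ => ?_
        split_ifs with hi
        · rw [Set.indicator_of_mem (Finset.mem_coe.mpr hi)]
          apply mul_le_of_le_one_right (wt_nonneg s i)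
          exact pow_le_one₀ (norm_nonneg _) (hε _)
        · rw [Set.indicator_of_notMem (by simpa using hi)]
          simp
    _ ≤ ∑ i ∈ G.image (fun γ => (n, γ)), wt s i := by
        rw [← Finset.sum_filter]
        exact Finset.sum_le_sum_of_subset_of_nonneg (fun i hi => (Finset.mem_filter.mp hi).2)
          (fun i _ _ => wt_nonneg s i)
    _ = ∑ γ ∈ G, wt s (n, γ) := by rw [Finset.sum_image hinj.injOn]
    _ ≤ ∑ γ ∈ G, (1 + if s n = some γ then (16 : ℝ) ^ n else 0) := by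
        refine Finset.sum_le_sum fun γ _ => ?_
        unfold wt
        split_ifs <;> simp
    _ ≤ _ := by
        rw [Finset.sum_add_distrib]
        simp only [Finset.sum_const, nsmul_eq_mul, mul_one, add_le_add_iff_left]
        cases s n with
        | none => simp
        | some g =>
          simp only [Option.some.injEq, Finset.sum_ite_eq]
          split_ifs
          · exact le_rfl
          · positivity

include S in
theorem negative [Uncountable Γ] : ∃ Y : Submodule 𝕜 X, IsClosed (Y : Set X) ∧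
    ∀ T : X →L[𝕜] X, T.ker ≠ Y := by
  choose σ hσ1 hσ2 using S.exists_sigma
  refine ⟨⨅ γ, (σ γ).ker, ?_, fun T hT => ?_⟩
  · simp only [Submodule.coe_iInf]
    exact isClosed_iInter fun γ => ContinuousLinearMap.isClosed_ker _
  obtain ⟨J, hJ⟩ := S.exists_J id Function.injective_id
  set U := J.comp T with hU
  have hmem : ∀ x, T x = 0 ↔ ∀ γ, σ γ x = 0 := by
    intro x
    have : x ∈ T.ker ↔ x ∈ ⨅ γ, (σ γ).ker := by rw [hT]
    simpa [Submodule.mem_iInf] using this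
  have h1 : ∀ γ, 0 < ‖U (S.e (0, γ))‖ := by
    intro γ
    rw [norm_pos_iff]
    intro h0
    have h2 : T (S.e (0, γ)) = 0 := S.ext0 _ fun i => by
      have := hJ (T (S.e (0, γ))) i
      rw [show J (T (S.e (0, γ))) = 0 from h0] at this
      simpa using this.symm
    have := (hmem _).mp h2 γ
    rw [hσ1] at this
    simp at this
  have h2 : ∀ n γ, U (S.e (n, γ)) = (2 ^ n : 𝕜) • U (S.e (0, γ)) := by
    intro n γ
    have : T (S.e (n, γ) - (2 ^ n : 𝕜) • S.e (0, γ)) = 0 := by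
      rw [hmem]
      intro γ'
      by_cases h : γ = γ'
      · subst h; simp [hσ1]
      · simp [hσ2 γ' _ γ h]
    rw [map_sub, map_smul, sub_eq_zero] at this
    simp [hU, this]
  obtain ⟨k, hk⟩ : ∃ k : ℕ, {γ | 1 / ((k : ℝ) + 1) < ‖U (S.e (0, γ))‖}.Infinite := by
    by_contra hcon
    push Not at hcon
    apply Set.not_countable_univ (α := Γ)
    refine (Set.countable_iUnion fun k => (hcon k).countable).mono fun γ _ => ?_
    exact Set.mem_iUnion.mpr (exists_nat_one_div_lt (h1 γ))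
  set δ : ℝ := 1 / ((k : ℝ) + 1) with hδ
  have hδ0 : 0 < δ := by positivity
  obtain ⟨n, hn⟩ := pow_unbounded_of_one_lt (2 * ‖U‖ ^ 2 / δ ^ 2) (show (1 : ℝ) < 4 by norm_num)
  obtain ⟨G, hG1, hG2⟩ := hk.exists_subset_card_eq (16 ^ n)
  obtain ⟨ε, hε, h3⟩ := exists_signs (𝕜 := 𝕜) (fun γ => U (S.e (n, γ))) G
  have h4 := S.norm_row n G ε hε
  have h5 : ‖∑ γ ∈ G, ε γ • U (S.e (n, γ))‖ ≤ ‖U‖ * ‖∑ γ ∈ G, ε γ • S.e (n, γ)‖ := by
    simpa using U.le_opNorm (∑ γ ∈ G, ε γ • S.e (n, γ))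
  have h6 : (16 : ℝ) ^ n * (4 ^ n * δ ^ 2) ≤ ∑ γ ∈ G, ‖U (S.e (n, γ))‖ ^ 2 := by
    have := Finset.card_nsmul_le_sum G (fun γ => ‖U (S.e (n, γ))‖ ^ 2) (4 ^ n * δ ^ 2)
      (fun γ hγ => by
        have h7 : δ < ‖U (S.e (0, γ))‖ := hG1 hγ
        have h8 : ((2 : ℝ) ^ n) ^ 2 = 4 ^ n := by rw [← pow_mul, mul_comm, pow_mul]; norm_num
        simp only [h2 n γ, norm_smul, norm_pow, RCLike.norm_ofNat, mul_pow, h8]
        gcongr)
    simpa [hG2] using this
  rw [hG2] at h4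
  push_cast at h4
  have h9 : (16 : ℝ) ^ n * (4 ^ n * δ ^ 2) ≤ ‖U‖ ^ 2 * (16 ^ n + 16 ^ n) := by
    calc _ ≤ _ := h6
      _ ≤ _ := h3
      _ ≤ (‖U‖ * ‖∑ γ ∈ G, ε γ • S.e (n, γ)‖) ^ 2 := by gcongr
      _ ≤ _ := by rw [mul_pow]; gcongr
  rw [div_lt_iff₀ (by positivity)] at hn
  have : (0 : ℝ) < 16 ^ n := by positivity
  nlinarith

end SeqSp

end Pool.Agent.Lib.MP_ad4c49_an
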