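import Mathlib
import Pool.Agent.Lib.MP_ad4c49_an.Neg

namespace Pool.Agent.Lib.MP_ad4c49_an

variable {𝕜 : Type} [RCLike 𝕜] {Γ : Type}

lemma exists_dual_closed {E : Type} [NormedAddCommGroup E] [NormedSpace 𝕜 E] (W : Submodule 𝕜 E)
    (hW : IsClosed (W : Set E)) {x : E} (hx : x ∉ W) :
    ∃ f : E →L[𝕜] 𝕜, (∀ w ∈ W, f w = 0) ∧ f x ≠ 0 := by
  have hne : W.mkQL x ≠ 0 := by simpa using hx
  obtain ⟨g, -, hg⟩ := exists_dual_vector 𝕜 (W.mkQL x) (norm_ne_zero_iff.mpr hne)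
  refine ⟨g.comp W.mkQL, fun w hw => ?_, ?_⟩
  · have : W.mkQL w = 0 := by simpa using hw
    simp [this]
  · rw [ContinuousLinearMap.comp_apply, hg]
    simpa using hx

lemma exists_closed_countable {I : Type} (h : Finset I → Set I) (hh : ∀ F, (h F).Countable)
    (i : I) : ∃ A : Set I, A.Countable ∧ i ∈ A ∧ ∀ F : Finset I, ↑F ⊆ A → h F ⊆ A := by
  let a : ℕ → Set I := fun n => Nat.rec {i} (fun _ B => B ∪ ⋃ F ∈ {F : Finset I | (F : Set I) ⊆ B}, h F) n
  have hc : ∀ n, (a n).Countable := by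
    intro n
    induction n with
    | zero => exact Set.countable_singleton i
    | succ n ih =>
      refine ih.union (Set.Countable.biUnion ?_ fun F _ => hh F)
      refine ((Set.countable_ofPred_finite_subset ih).preimage
        (f := fun F : Finset I => (F : Set I)) Finset.coe_injective).mono ?_
      intro F hF
      exact ⟨F.finite_toSet, hF⟩
  have hmono : Monotone a := monotone_nat_of_le_succ fun n => Set.subset_union_left
  refine ⟨⋃ n, a n, Set.countable_iUnion hc, Set.mem_iUnion.mpr ⟨0, rfl⟩, fun F hF => ?_⟩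
  obtain ⟨n, hn⟩ : ∃ n, (F : Set I) ⊆ a n := by
    classical
    induction F using Finset.induction_on with
    | empty => exact ⟨0, by simp⟩
    | insert j F hj ih =>
      rw [Finset.coe_insert, Set.insert_subset_iff] at hF
      obtain ⟨n, hn⟩ := ih hF.2
      obtain ⟨m, hm⟩ := Set.mem_iUnion.mp hF.1
      refine ⟨max n m, ?_⟩
      rw [Finset.coe_insert, Set.insert_subset_iff]
      exact ⟨hmono (le_max_right _ _) hm, hn.trans (hmono (le_max_left _ _))⟩
  refine subset_trans ?_ (Set.subset_iUnion a (n + 1))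
  intro j hj
  exact Or.inr (Set.mem_biUnion (s := {F : Finset I | (F : Set I) ⊆ a n}) hn hj)

namespace SeqSp

variable {X : Type} [NormedAddCommGroup X] [NormedSpace 𝕜 X] (S : SeqSp 𝕜 Γ X)

lemma countable_supp (x : X) : {i | S.c i x ≠ 0}.Countable := by
  have hsum : Summable fun i => ‖S.c i x‖ ^ 2 :=
    summable_of_sum_le (fun i => by positivity)
      (fun F => by simpa [wt_none] using S.bound x (fun _ => none) F)
  refine hsum.countable_support.mono fun i hi => ?_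
  simpa using hi

/-- Sets whose coordinate projection preserves `W`. -/
def Good (W : Submodule 𝕜 X) (A : Set (ℕ × Γ)) : Prop := ∀ w ∈ W, S.P A w ∈ W

lemma exists_approx (W : Submodule 𝕜 X) (F : Finset (ℕ × Γ)) : ∃ D : Set X, D.Countable ∧
    D ⊆ W ∧ ∀ w ∈ W, ∀ ε > 0, ∃ d ∈ D, ‖S.P F d - S.P F w‖ ≤ ε ∧ ‖d‖ ≤ ‖w‖ + 1 := by
  let Φ : X → (F → 𝕜) × ℝ := fun w => (fun i => S.c i w, ‖w‖)
  obtain ⟨t, ht1, ht2, ht3⟩ :=
    (TopologicalSpace.IsSeparable.of_separableSpace (Φ '' W)).exists_countable_dense_subset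
  have ht1' : ∀ u ∈ t, ∃ w, w ∈ W ∧ Φ w = u := fun u hu => ht1 hu
  choose! g hg1 hg2 using ht1'
  refine ⟨g '' t, ht2.image g, by rintro _ ⟨u, hu, rfl⟩; exact hg1 u hu, fun w hw ε hε => ?_⟩
  let Ψ : (F → 𝕜) × ℝ → X × ℝ := fun u => (∑ i : F, u.1 i • S.e i, u.2)
  have hΨ : Continuous Ψ := by fun_prop
  have hΨΦ : ∀ x, Ψ (Φ x) = (S.P F x, ‖x‖) := fun x => by
    simp only [Ψ, Φ, S.P_finset]
    rw [Finset.sum_coe_sort F (fun i => S.c i x • S.e i)]
  have h1 : Ψ (Φ w) ∈ closure (Ψ '' t) :=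
    image_closure_subset_closure_image hΨ ⟨_, ht3 ⟨w, hw, rfl⟩, rfl⟩
  obtain ⟨_, ⟨u, hu, rfl⟩, h2⟩ := Metric.mem_closure_iff.mp h1 (min ε 1) (by positivity)
  refine ⟨g u, ⟨u, hu, rfl⟩, ?_⟩
  rw [← hg2 u hu, hΨΦ, hΨΦ, Prod.dist_eq, max_lt_iff, lt_min_iff, lt_min_iff] at h2
  refine ⟨?_, ?_⟩
  · rw [← dist_eq_norm, dist_comm]; exact h2.1.1.le
  · have := h2.2.2
    rw [Real.dist_eq, abs_lt] at this
    linarith [this.1]

lemma exists_good_countable (W : Submodule 𝕜 X) (hW : IsClosed (W : Set X)) (i : ℕ × Γ) :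
    ∃ A : Set (ℕ × Γ), A.Countable ∧ i ∈ A ∧ S.Good W A := by
  classical
  choose D hD1 hD2 hD3 using S.exists_approx W
  obtain ⟨A, hA1, hA2, hA3⟩ := exists_closed_countable (fun F => ⋃ d ∈ D F, {i | S.c i d ≠ 0})
    (fun F => (hD1 F).biUnion fun d _ => S.countable_supp d) i
  refine ⟨A, hA1, hA2, fun w hw => ?_⟩
  by_contra hcon
  obtain ⟨f, hf1, hf2⟩ := exists_dual_closed W hW hcon
  apply hf2
  rw [← norm_le_zero_iff]
  refine le_of_forall_pos_le_add fun ε hε => ?_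
  set η := ε / (‖f‖ + 2 * ‖w‖ + 1) with hη
  have hη0 : 0 < η := by positivity
  obtain ⟨F0, hF0⟩ := S.shrink f hη0
  set F := F0.filter (· ∈ A) with hF
  have hFA : (F : Set (ℕ × Γ)) = (F0 : Set (ℕ × Γ)) ∩ A := by ext j; simp [hF]
  obtain ⟨d, hd1, hd2, hd3⟩ := hD3 F w hw η hη0
  have hdA : S.P A d = d := S.ext fun j => by
    by_cases hj : j ∈ A
    · exact S.c_P_mem d hj
    · rw [S.c_P_notMem d hj]
      by_contra hne
      exact hj (hA3 F (hFA ▸ Set.inter_subset_right)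
        (Set.mem_biUnion hd1 (show j ∈ {i | S.c i d ≠ 0} from Ne.symm hne)))
  have hsplit : ∀ x, f (S.P A x) = f (S.P F x) + (f.comp (S.P (↑F0)ᶜ)) (S.P A x) := fun x => by
    rw [hFA, ← S.P_P, ContinuousLinearMap.comp_apply, ← map_add, S.P_add_compl]
  have e1 : f (S.P A w) = -f (S.P F d - S.P F w) + (f.comp (S.P (↑F0)ᶜ)) (S.P A w - d) := by
    have h1 := hsplit d
    rw [hdA, hf1 d (hD2 F hd1)] at h1
    rw [hsplit w, map_sub, map_sub]
    linear_combination -h1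
  rw [e1, zero_add]
  refine (norm_add_le _ _).trans ?_
  have h1 : ‖-f (S.P F d - S.P F w)‖ ≤ ‖f‖ * η := by
    rw [norm_neg]
    exact (f.le_opNorm _).trans (by gcongr)
  have h2 : ‖(f.comp (S.P (↑F0)ᶜ)) (S.P A w - d)‖ ≤ η * (2 * ‖w‖ + 1) := by
    refine (ContinuousLinearMap.le_opNorm _ _).trans ?_
    gcongr
    refine (norm_sub_le _ _).trans ?_
    linarith [S.norm_P_le A w]
  have h3 : η * (‖f‖ + 2 * ‖w‖ + 1) = ε := div_mul_cancel₀ _ (by positivity)
  linarith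

lemma Good.compl {W : Submodule 𝕜 X} {A : Set (ℕ × Γ)} (h : S.Good W A) : S.Good W Aᶜ := by
  intro w hw
  have : S.P Aᶜ w = w - S.P A w := eq_sub_of_add_eq' (S.P_add_compl A w)
  rw [this]
  exact W.sub_mem hw (h w hw)

lemma Good.inter {W : Submodule 𝕜 X} {A B : Set (ℕ × Γ)} (h : S.Good W A) (h' : S.Good W B) :
    S.Good W (A ∩ B) := fun w hw => S.P_P A B w ▸ h _ (h' w hw)

lemma good_univ (W : Submodule 𝕜 X) : S.Good W Set.univ := fun w hw => by
  have : S.P Set.univ w = w := S.ext fun j => S.c_P_mem w trivial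
  rwa [this]

/-- The equivalence relation whose classes are the atoms of the algebra of good sets. -/
def rel (W : Submodule 𝕜 X) : Setoid (ℕ × Γ) where
  r i j := ∀ A, S.Good W A → (i ∈ A ↔ j ∈ A)
  iseqv := ⟨fun _ _ _ => Iff.rfl, fun h A hA => (h A hA).symm,
    fun h h' A hA => (h A hA).trans (h' A hA)⟩

/-- The atoms. -/
def atom (W : Submodule 𝕜 X) (a : Quotient (S.rel W)) : Set (ℕ × Γ) :=
  {j | Quotient.mk (S.rel W) j = a}

lemma atom_countable (W : Submodule 𝕜 X) (hW : IsClosed (W : Set X)) (a) :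
    (S.atom W a).Countable := by
  obtain ⟨i, rfl⟩ := a.exists_rep
  obtain ⟨A, h1, h2, h3⟩ := S.exists_good_countable W hW i
  exact h1.mono fun j hj => (Quotient.exact hj A h3).mpr h2

lemma atom_good (W : Submodule 𝕜 X) (hW : IsClosed (W : Set X)) (a) :
    S.Good W (S.atom W a) := by
  classical
  obtain ⟨i, rfl⟩ := a.exists_rep
  intro w hw
  have hsep : ∀ F : Finset (ℕ × Γ), ∃ B, S.Good W B ∧ S.atom W (Quotient.mk _ i) ⊆ B ∧
      ∀ j ∈ F, j ∈ B → j ∈ S.atom W (Quotient.mk _ i) := by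
    intro F
    induction F using Finset.induction_on with
    | empty => exact ⟨_, S.good_univ W, Set.subset_univ _, by simp⟩
    | insert j F hj ih =>
      obtain ⟨B, h1, h2, h3⟩ := ih
      by_cases hji : j ∈ S.atom W (Quotient.mk _ i)
      · exact ⟨B, h1, h2, by simpa [hji] using h3⟩
      · obtain ⟨C, hC1, hC2, hC3⟩ : ∃ C, S.Good W C ∧ i ∈ C ∧ j ∉ C := by
          by_contra hcon
          push Not at hcon
          apply hji
          apply Quotient.sound
          intro A hA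
          refine ⟨fun hjA => ?_, hcon A hA⟩
          by_contra hiA
          exact hcon Aᶜ (hA.compl S) hiA hjA
        refine ⟨B ∩ C, h1.inter S hC1,
          Set.subset_inter h2 fun l hl => (Quotient.exact hl C hC1).mpr hC2, ?_⟩
        intro l hl hl2
        rcases Finset.mem_insert.mp hl with rfl | hl
        · exact absurd hl2.2 hC3
        · exact h3 l hl hl2.1
  apply hW.closure_subset
  rw [Metric.mem_closure_iff]
  intro ε hε
  obtain ⟨F, hF⟩ := S.tail w (half_pos hε)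
  obtain ⟨B, h1, h2, h3⟩ := hsep F
  refine ⟨S.P B w, h1 w hw, ?_⟩
  rw [dist_eq_norm]
  refine lt_of_le_of_lt (le_trans (S.norm_mono fun j => ?_) hF) (half_lt_self hε)
  by_cases hj : j ∈ S.atom W (Quotient.mk _ i)
  · simp [c_P, hj, h2 hj]
  · by_cases hjB : j ∈ B
    · have : j ∉ F := fun h => hj (h3 j h hjB)
      simp [c_P, hj, hjB, this]
    · simp [c_P, hj, hjB]

lemma exists_dense_seq (W : Submodule 𝕜 X) (A : Set (ℕ × Γ)) (hA : A.Countable) :
    ∃ d : ℕ → X, (∀ n, d n ∈ W ∧ ‖d n‖ ≤ 1 ∧ ∀ j ∉ A, S.c j (d n) = 0) ∧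
      ∀ f : X →L[𝕜] 𝕜, (∀ n, f (d n) = 0) → ∀ w ∈ W, (∀ j ∉ A, S.c j w = 0) → f w = 0 := by
  classical
  set K : Set X := {x | x ∈ W ∧ ‖x‖ ≤ 1 ∧ ∀ j ∉ A, S.c j x = 0} with hK
  have hsep : TopologicalSpace.IsSeparable K := by
    refine ((hA.image S.e).isSeparable.span (R := 𝕜)).closure.mono fun x hx => ?_
    rw [Metric.mem_closure_iff]
    intro ε hε
    obtain ⟨F, hF⟩ := S.tail x (half_pos hε)
    refine ⟨S.P F x, ?_, ?_⟩
    · rw [S.P_finset]
      refine Submodule.sum_mem _ fun j _ => ?_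
      by_cases hj : j ∈ A
      · exact Submodule.smul_mem _ _ (Submodule.subset_span ⟨j, hj, rfl⟩)
      · rw [hx.2.2 j hj, zero_smul]; exact Submodule.zero_mem _
    · rw [dist_eq_norm, sub_eq_of_eq_add' (S.P_add_compl F x).symm]
      linarith
  obtain ⟨t, ht1, ht2, ht3⟩ := hsep.exists_countable_dense_subset
  have hne : t.Nonempty := by
    apply Set.Nonempty.of_closure
    exact ⟨0, ht3 ⟨W.zero_mem, by simp, by simp⟩⟩
  obtain ⟨d, rfl⟩ := ht2.exists_eq_range hne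
  refine ⟨d, fun n => ht1 ⟨n, rfl⟩, fun f hf w hw hw2 => ?_⟩
  have h1 : K ⊆ f.ker := ht3.trans
    ((ContinuousLinearMap.isClosed_ker f).closure_subset_iff.mpr (by rintro _ ⟨n, rfl⟩; exact hf n))
  have hpos : (0 : ℝ) < ‖w‖ + 1 := by positivity
  have h2 : ((‖w‖ + 1 : ℝ) : 𝕜)⁻¹ • w ∈ K := by
    refine ⟨W.smul_mem _ hw, ?_, fun j hj => by simp [hw2 j hj]⟩
    rw [norm_smul, norm_inv, RCLike.norm_ofReal, abs_of_pos hpos, inv_mul_le_iff₀ hpos]
    linarith
  have h3 : ((‖w‖ + 1 : ℝ) : 𝕜)⁻¹ • f w = 0 := by simpa using h1 h2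
  exact (smul_eq_zero.mp h3).resolve_left (inv_ne_zero (by exact_mod_cast hpos.ne'))

lemma vanish (W : Submodule 𝕜 X) (hW : IsClosed (W : Set X)) (f : X →L[𝕜] 𝕜)
    (hf : ∀ a, ∀ w ∈ W, (∀ j ∉ S.atom W a, S.c j w = 0) → f w = 0) : ∀ w ∈ W, f w = 0 := by
  classical
  intro w hw
  rw [← norm_le_zero_iff]
  refine le_of_forall_pos_le_add fun ε hε => ?_
  obtain ⟨F, hF⟩ := S.tail w (ε := ε / (‖f‖ + 1)) (by positivity)
  set G := F.image (Quotient.mk (S.rel W)) with hG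
  have h1 : f (∑ a ∈ G, S.P (S.atom W a) w) = 0 := by
    rw [map_sum]
    exact Finset.sum_eq_zero fun a _ =>
      hf a _ (S.atom_good W hW a w hw) fun j hj => S.c_P_notMem w hj
  have h2 : ‖w - ∑ a ∈ G, S.P (S.atom W a) w‖ ≤ ‖S.P (↑F)ᶜ w‖ := by
    refine S.norm_mono fun j => ?_
    have : ∀ a, S.c j (S.P (S.atom W a) w) = if Quotient.mk (S.rel W) j = a then S.c j w else 0 := by
      intro a
      split_ifs with h
      · exact S.c_P_mem w h
      · exact S.c_P_notMem w h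
    simp only [map_sub, map_sum, this, Finset.sum_ite_eq]
    split_ifs with h
    · simp
    · have : j ∉ F := fun hj => h (Finset.mem_image_of_mem _ hj)
      simp [c_P, this]
  have h3 := f.le_opNorm (w - ∑ a ∈ G, S.P (S.atom W a) w)
  rw [map_sub, h1, sub_zero] at h3
  rw [le_div_iff₀ (by positivity)] at hF
  nlinarith [norm_nonneg f, norm_nonneg (S.P (↑F)ᶜ w)]

include S in
theorem positive [Infinite Γ] (Y : Submodule 𝕜 (StrongDual 𝕜 X))
    (hY : IsClosed (Y : Set (StrongDual 𝕜 X))) :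
    ∃ T : StrongDual 𝕜 X →L[𝕜] StrongDual 𝕜 X, T.ker = Y := by
  classical
  set W : Submodule 𝕜 X := ⨅ f ∈ Y, f.ker with hWdef
  have hWmem : ∀ x, x ∈ W ↔ ∀ f ∈ Y, f x = 0 := fun x => by simp [hWdef, Submodule.mem_iInf]
  have hW : IsClosed (W : Set X) := by
    simp only [hWdef, Submodule.coe_iInf]
    exact isClosed_iInter fun f => isClosed_iInter fun _ => ContinuousLinearMap.isClosed_ker _
  have hbip : ∀ f : StrongDual 𝕜 X, (∀ w ∈ W, f w = 0) → f ∈ Y := by
    intro f hf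
    by_contra hcon
    obtain ⟨φ, h1, h2⟩ := exists_dual_closed Y hY hcon
    obtain ⟨x, rfl⟩ := S.reflexive φ
    exact h2 (hf x ((hWmem x).mpr h1))
  choose d hd1 hd2 using fun a => S.exists_dense_seq W _ (S.atom_countable W hW a)
  obtain ⟨ψ⟩ : Nonempty ((ℕ × Γ) × ℕ ≃ ℕ × Γ) := by
    rw [← Cardinal.eq]
    simp
  set φ : Quotient (S.rel W) × ℕ → ℕ × Γ := fun j => ψ (j.1.out, j.2) with hφ
  have hφinj : Function.Injective φ :=
    ψ.injective.comp (Quotient.out_injective.prodMap Function.injective_id)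
  obtain ⟨J, hJ⟩ := S.exists_J φ hφinj
  obtain ⟨V, hV⟩ := exists_toL2 (E := StrongDual 𝕜 X)
    (fun j : Quotient (S.rel W) × ℕ =>
      ((1 / 2 : 𝕜) ^ j.2) • NormedSpace.inclusionInDoubleDual 𝕜 X (d j.1 j.2)) 2 (by norm_num)
    (fun f F => by
      have hsub : F ⊆ (F.image Prod.fst) ×ˢ (F.image Prod.snd) := fun j hj =>
        Finset.mem_product.mpr ⟨Finset.mem_image_of_mem _ hj, Finset.mem_image_of_mem _ hj⟩
      refine (Finset.sum_le_sum_of_subset_of_nonneg hsub fun _ _ _ => by positivity).trans ?_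
      rw [Finset.sum_product_right]
      have h1 : ∀ n : ℕ, ∑ a ∈ F.image Prod.fst,
          ‖(((1 / 2 : 𝕜) ^ n) • NormedSpace.inclusionInDoubleDual 𝕜 X (d a n)) f‖ ^ 2
            ≤ (1 / 2 : ℝ) ^ n * ‖f‖ ^ 2 := by
        intro n
        have h2 := S.lower2 (F.image Prod.fst) (fun a => d a n) (fun a _ => (hd1 a n).2.1)
          (fun i a _ a' _ haa => by
            by_cases hi : i ∈ S.atom W a
            · exact Or.inr ((hd1 a' n).2.2 i fun hi' => haa (hi.symm.trans hi'))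
            · exact Or.inl ((hd1 a n).2.2 i hi)) f
        simp only [smul_apply, NormedSpace.dual_def, norm_smul, mul_pow, ← Finset.mul_sum]
        gcongr
        have : ‖(1 / 2 : 𝕜) ^ n‖ = (1 / 2 : ℝ) ^ n := by simp
        rw [this, sq]
        exact mul_le_of_le_one_right (by positivity) (pow_le_one₀ (by norm_num) (by norm_num))
      refine (Finset.sum_le_sum fun n _ => h1 n).trans ?_
      rw [← Finset.sum_mul, mul_pow]
      gcongr
      have := summable_geometric_two.sum_le_tsum (F.image Prod.snd) (fun _ _ => by positivity)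
      rw [tsum_geometric_two] at this
      linarith)
  let B : lp (fun _ : Quotient (S.rel W) × ℕ => 𝕜) 2 →L[𝕜]
      lp (fun _ : Quotient (S.rel W) × ℕ => 𝕜) 2 →L[𝕜] 𝕜 :=
    lp.dualPairing 2 2 (fun _ => ContinuousLinearMap.mul 𝕜 𝕜) (K := 1)
      (fun _ => ContinuousLinearMap.opNorm_mul_le 𝕜 𝕜)
  have hB : ∀ z z', B z z' = ∑' j, z j * z' j := fun z z' => rfl
  refine ⟨B.bilinearComp V J, ?_⟩
  ext f
  have hT : ∀ x, B.bilinearComp V J f x = ∑' j, (1 / 2 : 𝕜) ^ j.2 * f (d j.1 j.2) * S.c (φ j) x := by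
    intro x
    simp [hB, hV, hJ]
  change B.bilinearComp V J f = 0 ↔ _
  constructor
  · intro h
    apply hbip
    apply S.vanish W hW
    intro a
    apply hd2 a f
    intro n
    have h1 := hT (S.e (φ (a, n)))
    rw [h, tsum_eq_single (a, n)] at h1
    · simpa [c_e] using h1
    · intro j hj
      simp [c_e, hφinj.ne hj]
  · intro h
    ext x
    rw [hT]
    have : ∀ a n, f (d a n) = 0 := fun a n => (hWmem _).mp (hd1 a n).1 f h
    simp [this]

end SeqSp

end Pool.Agent.Lib.MP_ad4c49_an
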